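import Pool.Agent.MWG.Stmts

/-!
# Row SYM of block MWG: exchanging the names of two light letters
-/

namespace Pool.Agent.MWG.H47

open Pool.Agent.Helper14_MV Pool.Agent.Helper2_MV Pool.Agent.MVO Pool.Agent.MWL Pool.Agent.MWS
  Pool.Agent.MWG

/-- the exchange of the letters `0` and `1` -/
def sw (c : ℕ) : List ℕ := if c = 0 then [1] else if c = 1 then [0] else [c]

theorem sw0 : sw 0 = [1] := rfl

theorem sw1 : sw 1 = [0] := rfl

theorem sw_ge (c : ℕ) : sw (c + 2) = [c + 2] := by
  unfold sw
  rw [if_neg (by omega), if_neg (by omega)]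

/-- the exchange works block by block -/
theorem asm_sw (k : ℕ) (B C : ℕ → List ℕ) (h : ∀ j ≤ k, (B j).flatMap sw = C j) :
    (asm k B).flatMap sw = asm k C := by
  induction k with
  | zero => exact h 0 (le_refl 0)
  | succ k ih =>
    simp only [asm]
    rw [List.flatMap_append, List.flatMap_cons, ih (fun j hj => h j (by omega)), sw_ge,
      h (k + 1) (le_refl _)]
    rfl

theorem rep0 (n : ℕ) : (List.replicate n 0).flatMap sw = List.replicate n 1 := by
  induction n with
  | zero => rfl
  | succ n ih =>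
    rw [List.replicate_succ, List.flatMap_cons, ih, sw0, List.replicate_succ]
    rfl

theorem rep1 (n : ℕ) : (List.replicate n 1).flatMap sw = List.replicate n 0 := by
  induction n with
  | zero => rfl
  | succ n ih =>
    rw [List.replicate_succ, List.flatMap_cons, ih, sw1, List.replicate_succ]
    rfl

theorem hm_zero {a : ℕ → ℕ} {j : ℕ} (h : a j = 0) : hm a j = 0 := by
  unfold hm
  rw [if_pos h]

/-- the exchanged blocks -/
theorem cb_sw {k : ℕ} {a b : ℕ → ℕ} {i : ℕ} (hv : Vis k a b i)
    {l l' : List ℕ} (hl : l.flatMap sw = l') :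
    ∀ j ≤ k, (cb a b i l j).flatMap sw = cb b a i l' j := by
  intro j hj
  unfold cb
  by_cases hji : j = i
  · rw [if_pos hji, if_pos hji, hl]
  · rw [if_neg hji, if_neg hji, List.flatMap_append, rep0, rep1]
    have h0 : a j = 0 ∨ b j = 0 := by
      rcases lt_or_gt_of_ne hji with h | h
      · exact Or.inl (hv.2.1.2 j h)
      · exact hv.2.2.2 j h hj
    rcases h0 with h | h
    · rw [hm_zero h]
      simp
    · rw [hm_zero h]
      simp

theorem sym : SymStmt := by
  intro θ k a b i hv hb h
  have ha : Lf a i := hv.2.1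
  have e1 : (asm k (cb a b i [0, 1])).flatMap sw = asm k (cb b a i [1, 0]) :=
    asm_sw k _ _ (cb_sw hv rfl)
  have e2 : (asm k (cb a b i [1, 0])).flatMap sw = asm k (cb b a i [0, 1]) :=
    asm_sw k _ _ (cb_sw hv rfl)
  have h1 : RR θ (asm k (cb a b i [0, 1])) (asm k (cb a b i [1, 0])) := by
    unfold XL eL mL at h
    rw [if_pos hb] at h
    exact h
  have h2 := h1.sub sw
  rw [e1, e2] at h2
  have h3 := h2.symm
  constructor
  · unfold XL eL mL
    rw [if_pos ha]
    exact h3
  · unfold XR eR mR
    rw [if_pos ha]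
    exact h3

end Pool.Agent.MWG.H47
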